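import Pool.Agent.H93.SC.Targets2

/-!
Auxiliary targets of block B4 (dimension theory) for MP_f2954d_ag.
-/

namespace SC

/-- the linear form of a system, in the variables of its generic section -/
noncomputable def lin {K : Type} [Field K] (s : Sys K) :
    MvPolynomial (Var (fun _ : Unit => s)) K :=
  ∑ i : Fin s.r, MvPolynomial.C (s.s i) * MvPolynomial.X ⟨(), i⟩

/-- KER: the equation of the generic section -/
def T_KER : Prop := ∀ (K L : Type) [Field K] [Field L] [Algebra K L] (s : Sys K)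
  (U : Var (fun _ : Unit => s) → L), s.Nz → IsGen (fun _ : Unit => s) U →
  ∀ P : MvPolynomial (Var (fun _ : Unit => s)) K, MvPolynomial.aeval U P = 0 → lin s ∣ P

/-- GAU: Gauss lemma -/
def T_GAU : Prop := ∀ (k K ι : Type) [Field k] [Field K] [Algebra k K] (v : DV k K)
  (P Q : MvPolynomial ι K) (c e : ℤ), (∃ a, P.coeff a ≠ 0 ∧ v.ord (P.coeff a) ≤ e) →
  (∀ a, (P * Q).coeff a = 0 ∨ c ≤ v.ord ((P * Q).coeff a)) →
  ∀ a, Q.coeff a = 0 ∨ c - e ≤ v.ord (Q.coeff a)

/-- NEG: negative degree, any dimension -/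
def T_NEG : Prop := ∀ (k K J : Type) [Field k] [CharZero k] [Field K] [Algebra k K]
  [Algebra.EssFiniteType k K] [Fintype J] (S : J → Sys K), (∀ j, (S j).Nz) →
  Algebra.trdeg k K = (Fintype.card J + 1 : ℕ) → ∀ φ : List (ℤ × Sys K), Nzl φ →
  degs k S φ < 0 → Hs k φ = ⊥

/-- EXG: a generating system containing `1` -/
def T_EXG : Prop := ∀ (k K : Type) [Field k] [Field K] [Algebra k K] [Algebra.EssFiniteType k K],
  ∃ s : Sys K, (∃ i, s.s i = 1) ∧ s.Nz ∧ Generates k s

/-- STP: the generic section of a generating system -/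
def T_STP : Prop := ∀ (k K L : Type) [Field k] [CharZero k] [Field K] [Algebra k K]
  [Algebra.EssFiniteType k K] [Field L] [Algebra K L] [Algebra k L] [IsScalarTower k K L]
  (d : ℕ) (s : Sys K) (U : Var (fun _ : Unit => s) → L), Algebra.trdeg k K = (d + 1 : ℕ) → s.Nz →
  Generates k s → IsGen (fun _ : Unit => s) U →
  AlgebraicIndependent k U ∧ CharZero (kU k U) ∧ Algebra.EssFiniteType (kU k U) L ∧
    Algebra.trdeg (kU k U) L = d ∧
    (∀ t : Sys K, t.Nz → (t.up L).Nz) ∧
    (∀ t : Sys K, Generates k t → Generates (kU k U) (t.up L)) ∧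
    ∀ (J : Type) [Finite J] (T : J → Sys K), (∀ j, (T j).Nz) →
      Idx (Sum.elim (fun _ : Unit => s) T) k = Idx (fun j => (T j).up L) (kU k U)

/-- the span of the products of `m` elements of a system -/
noncomputable def pw (k : Type) {K : Type} [Field k] [Field K] [Algebra k K] (s : Sys K) (m : ℕ) :
    Submodule k K := (Submodule.span k (Set.range s.s)) ^ m

/-- PRD: products of a system and of its restriction to the generic section -/
def T_PRD : Prop := ∀ (k K L : Type) [Field k] [Field K] [Field L] [Algebra k K] [Algebra K L]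
  [Algebra k L] [IsScalarTower k K L] (s : Sys K) (U : Var (fun _ : Unit => s) → L), s.Nz →
  IsGen (fun _ : Unit => s) U → AlgebraicIndependent k U → ∀ m : ℕ,
  Module.finrank k (pw k s m) + Module.finrank (kU k U) (pw (kU k U) (s.up L) (m + 1)) ≤
    Module.finrank k (pw k s (m + 1))

/-- PW0: powers of a generating system of a finite extension -/
def T_PW0 : Prop := ∀ (k K : Type) [Field k] [Field K] [Algebra k K] [Module.Finite k K]
  (s : Sys K), s.Nz → Generates k s → ∃ m₀ : ℕ, ∀ m : ℕ, m₀ ≤ m → pw k s m = ⊤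

/-- HMU: multiplication by an element of `b` embeds `H(φ - m b)` into `H(φ)` -/
def T_HMU : Prop := ∀ (k K : Type) [Field k] [Field K] [Algebra k K] (φ : List (ℤ × Sys K))
  (b : Sys K) (m n : ℕ), b.Nz → m ≤ n → Module.Finite k (Hs k ((-(m : ℤ), b) :: φ)) →
  Module.Finite k (Hs k ((-(n : ℤ), b) :: φ)) ∧
  Module.finrank k (Hs k ((-(n : ℤ), b) :: φ)) ≤ Module.finrank k (Hs k ((-(m : ℤ), b) :: φ))

/-- TEL: iterated restriction inequality: `h(φ) ≤ n h(generic section, φ) + h(φ - n s)` for all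
`n`, when `s` generates and `K` has positive dimension -/
def T_TEL : Prop := ∀ (k K L : Type) [Field k] [CharZero k] [Field K] [Algebra k K]
  [Algebra.EssFiniteType k K] [Field L] [Algebra K L] [Algebra k L] [IsScalarTower k K L]
  (d : ℕ) (s : Sys K) (U : Var (fun _ : Unit => s) → L), Algebra.trdeg k K = (d + 1 : ℕ) → s.Nz →
  Generates k s → IsGen (fun _ : Unit => s) U → ∀ φ : List (ℤ × Sys K), Nzl φ → ∀ n : ℕ,
  Module.finrank k (Hs k φ) ≤
    ∑ j ∈ Finset.range n, Module.finrank (kU k U) (Hs (kU k U) (upl L ((-(j : ℤ), s) :: φ))) +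
      Module.finrank k (Hs k ((-(n : ℤ), s) :: φ))

end SC
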