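import Pool.Agent.H19.SCD.Core

/-!
The restriction inequality and the product inequality (MP_f2954d_ag, block B4).
-/

namespace Pool.Agent.H19.SCD

open SC MvPolynomial

lemma bas {k K : Type} [Field k] [AddCommGroup K] [Module k K] (H : Submodule k K)
    [Module.Finite k H] :
    ∃ g : Fin (Module.finrank k H) → K, LinearIndependent k g ∧ (∀ i, g i ∈ H) ∧
      Submodule.span k (Set.range g) = H := by
  refine ⟨fun i => (Module.finBasis k H i : K), ?_, fun i => (Module.finBasis k H i).2, ?_⟩
  · exact (Module.finBasis k H).linearIndependent.map' (Submodule.subtype _)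
      (Submodule.ker_subtype _)
  · have h6 := (Module.finBasis k H).span_eq
    have h7 := congrArg (Submodule.map (Submodule.subtype H)) h6
    rw [Submodule.map_span, Submodule.map_top, Submodule.range_subtype] at h7
    refine Eq.trans ?_ h7
    congr 1
    ext x
    simp

section

variable {k K L : Type} [Field k] [Field K] [Field L] [Algebra k K] [Algebra K L] [Algebra k L]
  [IsScalarTower k K L]

lemma restr (hKER : T_KER) (s : Sys K) (U : Var (fun _ : Unit => s) → L) (hs : s.Nz)
    (hG : IsGen (fun _ : Unit => s) U) (hU : AlgebraicIndependent k U)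
    (W : Submodule (kU k U) L) [Module.Finite (kU k U) W] (H' : Submodule k K)
    [Module.Finite k H'] {r : ℕ} (h : Fin r → K) (hh : LinearIndependent k h)
    (hW : ∀ i, algebraMap K L (h i) ∈ W)
    (hc : ∀ (a : Fin r → MvPolynomial (Var (fun _ : Unit => s)) k) (Q : MvPolynomial _ K),
      Th h a = lin s * Q → ∀ m, Q.coeff m ∈ H') :
    r ≤ Module.finrank (kU k U) W + Module.finrank k H' := by
  set Λ : (Fin r → kU k U) →ₗ[kU k U] W :=
    Fintype.linearCombination (kU k U) (fun i => (⟨algebraMap K L (h i), hW i⟩ : W)) with hΛ
  have h1 := LinearMap.finrank_range_add_finrank_ker Λ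
  rw [Module.finrank_fin_fun] at h1
  have h2 : Module.finrank (kU k U) (LinearMap.range Λ) ≤ Module.finrank (kU k U) W :=
    Submodule.finrank_le _
  set E := Module.finrank (kU k U) (LinearMap.ker Λ) with hE
  obtain ⟨b, hb1, hb2, -⟩ := bas (LinearMap.ker Λ)
  obtain ⟨d, a, hd, ha, hai⟩ := clear U hU _ hb1
  have h3 : ∀ t, aeval U (Th h (a t)) = 0 := by
    intro t
    rw [aeval_Th]
    have h4 : Λ (b t) = 0 := hb2 t
    have h5 : ∑ i, ((b t i : kU k U) : L) * algebraMap K L (h i) = 0 := by
      rw [hΛ, Fintype.linearCombination_apply] at h4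
      have h6 := congrArg (fun x : W => (x : L)) h4
      rw [Submodule.coe_sum] at h6
      rw [Submodule.coe_zero] at h6
      rw [← h6]
      refine Finset.sum_congr rfl fun i _ => ?_
      rw [Submodule.coe_smul, Algebra.smul_def]
      rfl
    have h7 : ∀ i, aeval U (a t i) = (d : L) * ((b t i : kU k U) : L) := by
      intro i
      rw [← ev_coe, ha t i]
      push_cast
      rfl
    simp only [h7, mul_assoc, ← Finset.mul_sum]
    rw [h5, mul_zero]
  have h4 : ∀ t, ∃ Q, Th h (a t) = lin s * Q := fun t => hKER K L s U hs hG _ (h3 t)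
  choose Q hQ using h4
  set q := Module.finrank k H' with hq
  obtain ⟨g, -, -, hsp⟩ := bas H'
  have h5 : ∀ t, ∃ a' : Fin q → MvPolynomial (Var (fun _ : Unit => s)) k,
      Th g a' = Q t := by
    intro t
    apply Th_surj
    intro m
    rw [hsp]
    exact hc (a t) (Q t) (hQ t) m
  choose a' ha' using h5
  have h6 : LinearIndependent (MvPolynomial (Var (fun _ : Unit => s)) k) a' := by
    rw [Fintype.linearIndependent_iff]
    intro c hc0
    apply Fintype.linearIndependent_iff.1 hai c
    have h7 : (fun i => ∑ t, c t * a' t i) = 0 := by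
      rw [← hc0]
      funext i
      simp
    have h8 := Th_sum g c a'
    rw [h7] at h8
    have h9 : ∑ t, map (algebraMap k K) (c t) * Q t = 0 := by
      simp only [ha'] at h8
      rw [← h8]
      simp [Th]
    have h10 : Th h (fun i => ∑ t, c t * a t i) = 0 := by
      rw [Th_sum]
      simp only [hQ, mul_left_comm _ (lin s) _]
      rw [← Finset.mul_sum, h9, mul_zero]
    have h11 := Th_inj h hh _ h10
    rw [← h11]
    funext i
    simp
  have h7 := (indep_F U hU a' h6).fintype_card_le_finrank
  rw [Module.finrank_fin_fun, Fintype.card_fin] at h7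
  omega

/-- the minimal order is attained -/
lemma mo_attained (v : DV k K) (s : Sys K) (hs : s.Nz) : ∃ i, s.s i ≠ 0 ∧ v.ord (s.s i) = v.mo s := by
  have h1 : {z | ∃ i, s.s i ≠ 0 ∧ v.ord (s.s i) = z}.Nonempty := by
    obtain ⟨i, hi⟩ := hs
    exact ⟨_, i, hi, rfl⟩
  have h2 : {z | ∃ i, s.s i ≠ 0 ∧ v.ord (s.s i) = z}.Finite := by
    apply (Set.finite_range (fun i => v.ord (s.s i))).subset
    rintro z ⟨i, _, rfl⟩
    exact ⟨i, rfl⟩
  exact Int.csInf_mem h1 h2.bddBelow

lemma coeff_lin (s : Sys K) (i : Fin s.r) :
    (lin s).coeff (Finsupp.single ⟨(), i⟩ 1) = s.s i := by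
  classical
  unfold lin
  rw [coeff_sum, Finset.sum_eq_single i]
  · rw [coeff_C_mul, coeff_X, if_pos rfl, mul_one]
  · intro j _ hj
    rw [coeff_C_mul, coeff_X, if_neg, mul_zero]
    intro h
    have := Finsupp.single_left_injective (one_ne_zero) h
    apply hj
    simpa using this
  · intro h
    exact absurd (Finset.mem_univ _) h

end

theorem d3 (hKER : T_KER) (hGAU : T_GAU) (hD3a : T_D3a) : T_D3 := by
  intro k K L _ _ _ _ _ _ _ s U φ hs hφ hG hU hfin hfin'
  have key : ∀ (r : ℕ) (h : Fin r → K), LinearIndependent k h → (∀ i, h i ∈ Hs k φ) →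
      r ≤ Module.finrank (kU k U) (Hs (kU k U) (upl L φ)) +
        Module.finrank k (Hs k ((-1, s) :: φ)) := by
    intro r h hh hmem
    refine restr hKER s U hs hG hU _ _ h hh (fun i => ?_) ?_
    · exact hD3a k K L Unit _ U φ hφ _ (hmem i)
    · intro a Q hQ m v
      have hco : ∀ m, (Th h a).coeff m ∈ Hs k φ := by
        intro m
        unfold Th
        simp only [coeff_sum, mul_comm _ (C _), coeff_C_mul, coeff_map]
        refine Submodule.sum_mem _ fun i _ => ?_
        rw [mul_comm, ← Algebra.smul_def]
        exact Submodule.smul_mem _ _ (hmem i)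
      obtain ⟨i, hi, hi2⟩ := mo_attained v s hs
      have h1 := hGAU k K _ v (lin s) Q (v.val φ) (v.mo s)
        ⟨Finsupp.single ⟨(), i⟩ 1, by rw [coeff_lin]; exact hi, by rw [coeff_lin, hi2]⟩
        (by rw [← hQ]; exact fun m => hco m v) m
      rcases h1 with h1 | h1
      · exact Or.inl h1
      · right
        have h2 : v.val ((-1, s) :: φ) = - v.mo s + v.val φ := by
          simp [DV.val]
        rw [h2]
        omega
  have hrank : Module.rank k (Hs k φ) ≤ ((Module.finrank (kU k U) (Hs (kU k U) (upl L φ)) +
        Module.finrank k (Hs k ((-1, s) :: φ)) : ℕ) : Cardinal) := by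
    apply rank_le
    intro t ht
    have h1 : LinearIndependent k (fun i : Fin t.card => (((t.equivFin.symm i : t) : Hs k φ) : K)) := by
      have h2 := ht.comp _ t.equivFin.symm.injective
      exact h2.map' (Submodule.subtype _) (Submodule.ker_subtype _)
    exact key _ _ h1 (fun i => ((t.equivFin.symm i : t) : Hs k φ).2)
  have hf : Module.Finite k (Hs k φ) := by
    rw [← Module.rank_lt_aleph0_iff]
    exact lt_of_le_of_lt hrank (Cardinal.natCast_lt_aleph0)
  exact ⟨hf, Module.finrank_le_of_rank_le hrank⟩

theorem prd : T_PRD := by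
  intro k K L _ _ _ _ _ _ _ s U hs hG hU m
  have hP : ∀ n, Module.Finite k (pw k s n) := by
    intro n
    unfold pw
    rw [Module.Finite.iff_fg]
    exact (Submodule.fg_span (Set.finite_range _)).pow n
  have hfm := hP m
  have hfm1 := hP (m + 1)
  set M := Module.finrank k (pw k s (m + 1)) with hM
  set r := Module.finrank k (pw k s m) with hr
  obtain ⟨g, hgli, hgmem, hsp⟩ := bas (pw k s (m + 1))
  obtain ⟨h, hhli, hhmem, -⟩ := bas (pw k s m)
  -- the products
  have h1 : ∀ t : Fin r, ∃ a : Fin M → MvPolynomial (Var (fun _ : Unit => s)) k,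
      Th g a =
        lin s * C (h t) := by
    intro t
    apply Th_surj
    intro e
    rw [hsp, mul_comm, coeff_C_mul]
    have h2 : (lin s).coeff e ∈ Submodule.span k (Set.range s.s) := by
      classical
      unfold lin
      rw [coeff_sum]
      refine Submodule.sum_mem _ fun i _ => ?_
      rw [coeff_C_mul, coeff_X]
      split_ifs
      · rw [mul_one]
        exact Submodule.subset_span ⟨i, rfl⟩
      · rw [mul_zero]
        exact Submodule.zero_mem _
    unfold pw
    rw [pow_succ]
    exact Submodule.mul_mem_mul (hhmem t) h2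
  choose a ha using h1
  have hlin0 : lin s ≠ 0 := by
    intro h0
    obtain ⟨i, hi⟩ := hs
    apply hi
    rw [← coeff_lin s i, h0, coeff_zero]
  have hai : LinearIndependent (MvPolynomial (Var (fun _ : Unit => s)) k) a := by
    rw [Fintype.linearIndependent_iff]
    intro c hc0
    have h7 : (fun i => ∑ t, c t * a t i) = 0 := by
      rw [← hc0]
      funext i
      simp
    have h8 := Th_sum g c a
    rw [h7] at h8
    have h9 : Th h c = 0 := by
      simp only [ha, mul_left_comm _ (lin s) _] at h8
      rw [← Finset.mul_sum] at h8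
      have h10 : Th g
          (0 : Fin M → MvPolynomial (Var (fun _ : Unit => s)) k) = 0 := by
        simp [Th]
      rw [h10] at h8
      exact (mul_eq_zero.1 h8.symm).resolve_left hlin0
    exact fun t => congrFun (Th_inj _ hhli c h9) t
  -- the linear map
  set Λ : (Fin M → kU k U) →ₗ[kU k U] L :=
    Fintype.linearCombination (kU k U)
      (fun j => algebraMap K L (g j)) with hΛ
  have h2 := LinearMap.finrank_range_add_finrank_ker Λ
  rw [Module.finrank_fin_fun] at h2
  have h3 : LinearMap.range Λ = pw (kU k U) (s.up L) (m + 1) := by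
    rw [hΛ, Fintype.range_linearCombination]
    have h4 : ∀ n, (Submodule.span (kU k U) (Set.range (s.up L).s)) ^ n =
        Submodule.span (kU k U) (algebraMap K L '' (pw k s n : Set K)) := by
      intro n
      induction n with
      | zero =>
        unfold pw
        simp only [pow_zero]
        apply le_antisymm
        · rw [Submodule.one_le]
          refine Submodule.subset_span ⟨1, ?_, by simp⟩
          exact Submodule.one_le.1 le_rfl
        · rw [Submodule.span_le]
          rintro _ ⟨x, hx, rfl⟩
          obtain ⟨c, rfl⟩ := Submodule.mem_one.1 hx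
          apply Submodule.mem_one.2
          refine ⟨algebraMap k (kU k U) c, ?_⟩
          rw [← IsScalarTower.algebraMap_apply, ← IsScalarTower.algebraMap_apply]
      | succ n ih =>
        rw [pow_succ, ih]
        unfold pw
        rw [pow_succ]
        apply le_antisymm
        · rw [Submodule.span_mul_span]
          apply Submodule.span_mono
          rintro _ ⟨_, ⟨x, hx, rfl⟩, _, ⟨i, rfl⟩, rfl⟩
          refine ⟨x * s.s i, Submodule.mul_mem_mul hx (Submodule.subset_span ⟨i, rfl⟩), ?_⟩
          simp
        · rw [Submodule.span_le]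
          rintro _ ⟨x, hx, rfl⟩
          rw [SetLike.mem_coe]
          rw [SetLike.mem_coe] at hx
          refine Submodule.mul_induction_on hx ?_ ?_
          · intro y hy z hz
            rw [map_mul]
            refine Submodule.mul_mem_mul (Submodule.subset_span ⟨y, hy, rfl⟩) ?_
            refine Submodule.span_induction ?_ ?_ ?_ ?_ hz
            · rintro _ ⟨i, rfl⟩
              exact Submodule.subset_span ⟨i, rfl⟩
            · simp
            · intro u v _ _ hu hv
              rw [map_add]
              exact Submodule.add_mem _ hu hv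
            · intro c u _ hu
              have h5 : algebraMap K L (c • u) = (algebraMap k (kU k U) c) • algebraMap K L u := by
                rw [Algebra.smul_def, Algebra.smul_def, map_mul,
                  ← IsScalarTower.algebraMap_apply, ← IsScalarTower.algebraMap_apply]
              rw [h5]
              exact Submodule.smul_mem _ _ hu
          · intro y z hy hz
            rw [map_add]
            exact Submodule.add_mem _ hy hz
    unfold pw
    rw [h4 (m + 1)]
    apply le_antisymm
    · apply Submodule.span_mono
      rintro _ ⟨j, rfl⟩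
      exact ⟨_, hgmem j, rfl⟩
    · rw [Submodule.span_le]
      rintro _ ⟨x, hx, rfl⟩
      rw [SetLike.mem_coe]
      rw [SetLike.mem_coe, ← hsp] at hx
      refine Submodule.span_induction ?_ ?_ ?_ ?_ hx
      · rintro _ ⟨i, rfl⟩
        exact Submodule.subset_span ⟨i, rfl⟩
      · simp
      · intro u v _ _ hu hv
        rw [map_add]
        exact Submodule.add_mem _ hu hv
      · intro c u _ hu
        have h5 : algebraMap K L (c • u) = (algebraMap k (kU k U) c) • algebraMap K L u := by
          rw [Algebra.smul_def, Algebra.smul_def, map_mul,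
            ← IsScalarTower.algebraMap_apply, ← IsScalarTower.algebraMap_apply]
        rw [h5]
        exact Submodule.smul_mem _ _ hu
  rw [h3] at h2
  have h4 : ∀ t, (fun j => ev U (a t j)) ∈ LinearMap.ker Λ := by
    intro t
    rw [LinearMap.mem_ker, hΛ, Fintype.linearCombination_apply]
    have h5 := aeval_Th U g (a t)
    rw [ha t, map_mul] at h5
    have h6 : aeval U (lin s) = 0 := by
      have h7 := hG.rel ()
      unfold lin
      simpa using h7
    rw [h6, zero_mul] at h5
    rw [h5]
    refine Finset.sum_congr rfl fun j _ => ?_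
    rw [Algebra.smul_def, ← ev_coe]
    rfl
  have h5 : LinearIndependent (kU k U) (fun t : Fin r => (⟨_, h4 t⟩ : LinearMap.ker Λ)) := by
    apply LinearIndependent.of_comp (Submodule.subtype _)
    exact indep_F U hU a hai
  have h6 := h5.fintype_card_le_finrank
  rw [Fintype.card_fin] at h6
  omega

end Pool.Agent.H19.SCD
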