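import Pool.Agent.H12.SCD.D0B
import Pool.Agent.H62.SCD.D1
import Pool.Agent.H62.SCD.D2
import Pool.Agent.H62.SCD.SIU
import Pool.Agent.H62.SCD.HOD
import Pool.Agent.H64.SCD.Small
import Pool.Agent.H64.SCD.Stp
import Pool.Agent.H64.SC.Api2
import Pool.Agent.H90.SCD.D4
import Pool.Agent.H90.SCD.NEG
import Pool.Agent.H49.SCD.GAU
import Pool.Agent.H49.SCD.KER
import Pool.Agent.H49.SCD.PW0
import Pool.Agent.H19.SCD.D3

/-!
Block B4 (dimension theory) of MP_f2954d_ag, assembled: every target of the block from the targets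
of the valuation theory and of the generic sections.
-/

namespace Pool.Agent.H19.SCD

open SC

/-- everything of block B4 -/
structure B4 : Prop where
  neg : T_NEG
  d0a : T_D0a
  d0b : T_D0b
  d3a : T_D3a
  d3 : T_D3
  d4 : T_D4
  d2 : T_D2
  d1 : T_D1
  siu : T_SIU
  hod : T_HOD
  stp : T_STP
  tel : T_TEL
  hmu : T_HMU
  exg : T_EXG

theorem d0a (hNEG : T_NEG) : T_D0a := by
  intro k K _ _ _ _ _ htr φ hφ hdeg
  refine hNEG k K Empty (fun i : Empty => i.elim) (fun j => j.elim) ?_ φ hφ hdeg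
  rw [htr]
  simp

theorem b4 (hV5 : T_V5) (hV6a : T_V6a) (hV6b : T_V6b) (hV6c : T_V6c) (hM1 : T_M1) (hM8 : T_M8)
    (hM9 : T_M9) (hG1a : T_G1a) (hG2r : T_G2r) (hG2e : T_G2e) (hG3i : T_G3i) (hG3t : T_G3t)
    (hPOS : T_POS) : B4 := by
  have hNEG : T_NEG := Pool.Agent.H90.SCD.neg hM8 hM9
  have hD3 : T_D3 := d3 Pool.Agent.H49.SCD.ker Pool.Agent.H49.SCD.gau SC.t_D3a
  have hSTP : T_STP := Pool.Agent.H64.SCD.stp hPOS hG3i hG3t
  have hD4 : T_D4 := Pool.Agent.H90.SCD.d4 hD3 hNEG Pool.Agent.H64.SCD.exg hSTP hG1a hPOS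
  have hTEL : T_TEL := Pool.Agent.H64.SCD.tel hD3 hD4 hSTP
  have hD0b : T_D0b := Pool.Agent.H12.SCD.d0b hV5 hV6a hV6b hV6c hM1 hG2r
  have hD2 : T_D2 := Pool.Agent.H62.SCD.d2 prd Pool.Agent.H49.SCD.pw0 hD4 hSTP hG1a hG2r hG2e
  have hD1 : T_D1 := Pool.Agent.H62.SCD.d1 hTEL hD4 hSTP hG1a hG2r hG2e
  have hSIU : T_SIU := Pool.Agent.H62.SCD.siu hTEL Pool.Agent.H64.SCD.hmu hD1 hD2 hD4 hSTP hG1a
    hG2r
  have hHOD : T_HOD := Pool.Agent.H62.SCD.hod hTEL hNEG hD0b hD2 hSTP hG1a hG2r hPOS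
  exact ⟨hNEG, d0a hNEG, hD0b, SC.t_D3a, hD3, hD4, hD2, hD1, hSIU, hHOD, hSTP, hTEL,
    Pool.Agent.H64.SCD.hmu, Pool.Agent.H64.SCD.exg⟩

end Pool.Agent.H19.SCD
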