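import Pool.Agent.H19.SCD.All
import Pool.Agent.H76.KN.V5
import Pool.Agent.H36.SC.V6
import Pool.Agent.H36.SC.M1
import Pool.Agent.H65.KN.M8
import Pool.Agent.H65.KN.G5
import Pool.Agent.H74.SC.GD
import Pool.Agent.H74.SC.GE
import Pool.Agent.H80.SC.G1
import Pool.Agent.H80.SC.G2
import Pool.Agent.H56.SC.G2x
import Pool.Agent.H56.SC.POS
import Pool.Agent.H18.KN.G3i
import Pool.Agent.H18.KN.G3t
import Pool.Agent.H20.SC.G4
import Pool.Agent.H13.SC.V3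
import Pool.Agent.H13.SC.G0

/-!
Block B4 of MP_f2954d_ag without hypotheses.
-/

namespace Pool.Agent.H19.SCD

open SC

theorem tV2 : T_V2 := SC.t_V2

theorem tV2r : T_V2r := SC.t_V2r

theorem tV5 : T_V5 := Pool.Agent.H76.KN.v5

theorem tV6a : T_V6a := Pool.Agent.H36.SC.v6a tV5

theorem tV6b : T_V6b := Pool.Agent.H36.SC.v6b tV5

theorem tV6c : T_V6c := Pool.Agent.H36.SC.v6c tV5

theorem tG0 : T_G0 := SC.H13.g0

theorem tV3b : T_V3b := SC.H13.v3b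

theorem tG1a : T_G1a := Pool.Agent.H80.SCG.g1a

theorem tG1b : T_G1b := Pool.Agent.H80.SCG.g1b

theorem tG1c : T_G1c := Pool.Agent.H80.SCG.g1c

theorem tG2 : T_G2 := Pool.Agent.H80.SCG.g2

theorem tG2e : T_G2e := Pool.Agent.H56.SC.g2e tG2

theorem tG2f : T_G2f := Pool.Agent.H56.SC.g2f tG2 tG1a

theorem tG2r : T_G2r := Pool.Agent.H56.SC.g2r tG2 tG1a tG1c

theorem tG2s : T_G2s := Pool.Agent.H56.SC.g2s tG2 tG1a

theorem tG3i : T_G3i := Pool.Agent.H18.KN.g3i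

theorem tG3t : T_G3t := Pool.Agent.H18.KN.g3t

theorem tG4 : T_G4 := SC.H20.g4 tV2r tG1c

theorem tG4u : T_G4u := SC.H20.g4u

theorem tG4t : T_G4t := Pool.Agent.H80.SCG.g4t

theorem tG5 : T_G5 := Pool.Agent.H65.KN.g5 tV2 tV2r tV3b tG4 tG4u tG4t

theorem tGD : T_GD := Pool.Agent.H74.KN.gd tG2

theorem tGE : T_GE := Pool.Agent.H74.KN.ge tG4 tG2 tG4t

theorem tM1 : T_M1 := Pool.Agent.H36.SC.m1 tV2 tV2r tV5 tG0 tG1a tG2 tG4 tG4t tG4u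

theorem tM8 : T_M8 := Pool.Agent.H65.KN.m8 tV6a tV6b tV6c tG1a tG3t tG5 tGD tGE tG4u

theorem tM9 : T_M9 :=
  Pool.Agent.H65.KN.m9 tV6a tV6b tV6c tG1a tG2r tG3i tG3t tG5 tGD tGE tG4u tM1

theorem tPOS : T_POS := Pool.Agent.H56.SC.pos tG1a tG1b tG1c tG2e tG2r tG3i tG3t

theorem b4_all : B4 :=
  b4 tV5 tV6a tV6b tV6c tM1 tM8 tM9 tG1a tG2r tG2e tG3i tG3t tPOS

end Pool.Agent.H19.SCD
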