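import Pool.Agent.H93.SC.Targets2
import Pool.Agent.H19.SCD.TargetsD

/-!
Linear algebra over a polynomial ring and its field of fractions, for the restriction inequality
and the product inequality (MP_f2954d_ag, block B4).
-/

namespace Pool.Agent.H19.SCD

open SC MvPolynomial

section Theta

variable {k K L V : Type} [Field k] [Field K] [Field L] [Algebra k K] [Algebra K L] [Algebra k L]
  [IsScalarTower k K L]

/-- the polynomial with coefficients in `K` of a vector of polynomials over `k` -/
noncomputable def Th {r : ℕ} (h : Fin r → K) (a : Fin r → MvPolynomial V k) : MvPolynomial V K :=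
  ∑ i, map (algebraMap k K) (a i) * C (h i)

lemma Th_mul {r : ℕ} (h : Fin r → K) (c : MvPolynomial V k) (a : Fin r → MvPolynomial V k) :
    Th h (fun i => c * a i) = map (algebraMap k K) c * Th h a := by
  unfold Th
  rw [Finset.mul_sum]
  refine Finset.sum_congr rfl fun i _ => ?_
  rw [map_mul, mul_assoc]

lemma Th_sum {r : ℕ} {T : Type} [Fintype T] (h : Fin r → K) (c : T → MvPolynomial V k)
    (a : T → Fin r → MvPolynomial V k) :
    Th h (fun i => ∑ t, c t * a t i) = ∑ t, map (algebraMap k K) (c t) * Th h (a t) := by
  unfold Th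
  simp only [map_sum, map_mul, Finset.sum_mul, Finset.mul_sum]
  rw [Finset.sum_comm]
  refine Finset.sum_congr rfl fun t _ => Finset.sum_congr rfl fun i _ => ?_
  ring

lemma Th_inj {r : ℕ} (h : Fin r → K) (hh : LinearIndependent k h) (a : Fin r → MvPolynomial V k)
    (ha : Th h a = 0) : a = 0 := by
  funext i
  ext m
  have h1 : ∀ m, ∑ i, (a i).coeff m • h i = 0 := by
    intro m
    have h2 := congrArg (fun p => MvPolynomial.coeff m p) ha
    simp only [Th, coeff_sum, mul_comm _ (C _), coeff_C_mul, coeff_map, coeff_zero] at h2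
    simpa [Algebra.smul_def, mul_comm] using h2
  have h3 := Fintype.linearIndependent_iff.1 hh (fun i => (a i).coeff m) (h1 m) i
  simpa using h3

lemma aeval_Th {r : ℕ} (U : V → L) (h : Fin r → K) (a : Fin r → MvPolynomial V k) :
    aeval U (Th h a) = ∑ i, aeval U (a i) * algebraMap K L (h i) := by
  unfold Th
  rw [map_sum]
  refine Finset.sum_congr rfl fun i _ => ?_
  rw [map_mul, aeval_C, aeval_map_algebraMap]

lemma Th_surj {r : ℕ} (h : Fin r → K) (Q : MvPolynomial V K)
    (hQ : ∀ m, Q.coeff m ∈ Submodule.span k (Set.range h)) :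
    ∃ a : Fin r → MvPolynomial V k, Th h a = Q := by
  have h1 : ∀ m, ∃ c : Fin r → k, ∑ i, c i • h i = Q.coeff m := by
    intro m
    exact (Submodule.mem_span_range_iff_exists_fun k).1 (hQ m)
  choose c hc using h1
  refine ⟨fun i => ∑ m ∈ Q.support, monomial m (c m i), ?_⟩
  unfold Th
  simp only [map_sum, map_monomial]
  conv_rhs => rw [MvPolynomial.as_sum Q]
  simp only [Finset.sum_mul]
  rw [Finset.sum_comm]
  refine Finset.sum_congr rfl fun m _ => ?_
  rw [← hc m, map_sum]
  refine Finset.sum_congr rfl fun i _ => ?_
  rw [Algebra.smul_def, mul_comm (monomial m _) (C _), C_mul_monomial, mul_comm]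

end Theta

section Frac

variable {k L V : Type} [Field k] [Field L] [Algebra k L]

/-- evaluation with values in `k(U)` -/
noncomputable def ev (U : V → L) : MvPolynomial V k →+* kU k U :=
  (aeval (fun x : V => (⟨U x, IntermediateField.subset_adjoin k _ ⟨x, rfl⟩⟩ : kU k U)) :
    MvPolynomial V k →ₐ[k] kU k U).toRingHom

lemma ev_coe (U : V → L) (p : MvPolynomial V k) : ((ev U p : kU k U) : L) = aeval U p := by
  have h1 : ((kU k U).val.comp (aeval (fun x : V =>
      (⟨U x, IntermediateField.subset_adjoin k _ ⟨x, rfl⟩⟩ : kU k U)))) = aeval U := by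
    apply MvPolynomial.algHom_ext
    intro x
    simp
  exact congrArg (fun f => f p) (congrArg (fun f : MvPolynomial V k →ₐ[k] L => (f : _ → _)) h1)

lemma ev_inj (U : V → L) (hU : AlgebraicIndependent k U) :
    Function.Injective (ev U : MvPolynomial V k →+* kU k U) := by
  intro p q h
  apply hU
  have := congrArg (fun x : kU k U => (x : L)) h
  simpa [ev_coe] using this

lemma ev_surj (U : V → L) (x : kU k U) :
    ∃ p q : MvPolynomial V k, x = ev U p / ev U q := by
  obtain ⟨p, q, h⟩ := (IntermediateField.mem_adjoin_range_iff k U x.1).1 x.2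
  refine ⟨p, q, ?_⟩
  apply Subtype.ext
  rw [h]
  push_cast
  rw [ev_coe, ev_coe]

/-- linear independence passes to the field of fractions -/
lemma indep_F (U : V → L) (hU : AlgebraicIndependent k U) {M : ℕ} {T : Type}
    (a : T → Fin M → MvPolynomial V k) (ha : LinearIndependent (MvPolynomial V k) a) :
    LinearIndependent (kU k U) (fun t => fun i => ev U (a t i)) := by
  let _ : Algebra (MvPolynomial V k) (kU k U) := (ev U).toAlgebra
  have hmap : ∀ p : MvPolynomial V k, algebraMap (MvPolynomial V k) (kU k U) p = ev U p :=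
    fun _ => rfl
  have hinj : Function.Injective (algebraMap (MvPolynomial V k) (kU k U)) := ev_inj U hU
  have : FaithfulSMul (MvPolynomial V k) (kU k U) :=
    (faithfulSMul_iff_algebraMap_injective _ _).2 hinj
  have : IsFractionRing (MvPolynomial V k) (kU k U) := IsFractionRing.of_field _ _ (ev_surj U)
  rw [← LinearIndependent.iff_fractionRing (MvPolynomial V k) (kU k U)]
  have h1 := ha.map' ((Algebra.linearMap (MvPolynomial V k) (kU k U)).compLeft (Fin M)) (by
    rw [LinearMap.ker_eq_bot]
    intro x y hxy
    funext i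
    exact hinj (congrFun hxy i))
  exact h1

/-- clearing denominators -/
lemma clear (U : V → L) (hU : AlgebraicIndependent k U) {M : ℕ} {T : Type} [Finite T]
    (b : T → Fin M → kU k U) (hb : LinearIndependent (kU k U) b) :
    ∃ (d : kU k U) (a : T → Fin M → MvPolynomial V k), d ≠ 0 ∧
      (∀ t i, ev U (a t i) = d * b t i) ∧ LinearIndependent (MvPolynomial V k) a := by
  let _ : Algebra (MvPolynomial V k) (kU k U) := (ev U).toAlgebra
  have hmap : ∀ p : MvPolynomial V k, algebraMap (MvPolynomial V k) (kU k U) p = ev U p :=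
    fun _ => rfl
  have hinj : Function.Injective (algebraMap (MvPolynomial V k) (kU k U)) := ev_inj U hU
  have : FaithfulSMul (MvPolynomial V k) (kU k U) :=
    (faithfulSMul_iff_algebraMap_injective _ _).2 hinj
  have : IsFractionRing (MvPolynomial V k) (kU k U) := IsFractionRing.of_field _ _ (ev_surj U)
  obtain ⟨d, hd⟩ := IsLocalization.exist_integer_multiples_of_finite
    (nonZeroDivisors (MvPolynomial V k)) (fun x : T × Fin M => b x.1 x.2)
  choose a ha using hd
  have hd0 : ev U d.1 ≠ 0 := by
    intro h
    have : d.1 = 0 := ev_inj U hU (by rw [h, map_zero])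
    exact nonZeroDivisors.coe_ne_zero d this
  refine ⟨ev U d.1, fun t i => a (t, i), hd0, fun t i => ?_, ?_⟩
  · have := ha (t, i)
    rw [hmap, Algebra.smul_def, hmap] at this
    exact this
  · have hb2 : LinearIndependent (kU k U) (fun t => ev U d.1 • b t) := by
      have := hb.units_smul (fun _ => Units.mk0 _ hd0)
      exact this
    rw [← LinearIndependent.iff_fractionRing (MvPolynomial V k) (kU k U)] at hb2
    have h2 : (fun t => ev U d.1 • b t) =
        ((Algebra.linearMap (MvPolynomial V k) (kU k U)).compLeft (Fin M)) ∘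
          (fun t i => a (t, i)) := by
      funext t i
      have := ha (t, i)
      rw [hmap, Algebra.smul_def, hmap] at this
      simp only [Pi.smul_apply, smul_eq_mul, Function.comp_apply, LinearMap.compLeft_apply,
        Algebra.linearMap_apply, hmap]
      rw [this]
    rw [h2] at hb2
    exact LinearIndependent.of_comp _ hb2

end Frac

end Pool.Agent.H19.SCD
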